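import Mathlib

set_option autoImplicit false

/-!
# From the law of the spacings to the law of the numbers in windows (pure part)
-/

namespace Pool.Agent.J6H38.SL

open Finset

/-- the Poisson weight -/
noncomputable def pw (j : ℕ) (x : ℝ) : ℝ := Real.exp (-x) * x ^ j / j.factorial

/-- the Poisson distribution function -/
noncomputable def G (l : ℕ) (x : ℝ) : ℝ := ∑ j ∈ range l, pw j x

lemma pw_nonneg (j : ℕ) {x : ℝ} (hx : 0 ≤ x) : 0 ≤ pw j x := by
  unfold pw
  positivity

lemma pw_le_one (j : ℕ) {x : ℝ} (hx : 0 ≤ x) : pw j x ≤ 1 := by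
  unfold pw
  have h1 : x ^ j / j.factorial ≤ Real.exp x := Real.pow_div_factorial_le_exp x hx j
  rw [mul_div_assoc, Real.exp_neg]
  rw [inv_mul_le_iff₀ (Real.exp_pos x), mul_one]
  exact h1

lemma deriv_pw_zero (x : ℝ) : HasDerivAt (pw 0) (- pw 0 x) x := by
  have h : HasDerivAt (fun x : ℝ => Real.exp (-x)) (Real.exp (-x) * (-1)) x :=
    (hasDerivAt_neg x).exp
  have e : pw 0 = fun x : ℝ => Real.exp (-x) := by
    funext y
    simp [pw]
  rw [e]
  simpa using h

lemma deriv_pw_succ (j : ℕ) (x : ℝ) : HasDerivAt (pw (j + 1)) (pw j x - pw (j + 1) x) x := by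
  have h : HasDerivAt (fun x : ℝ => Real.exp (-x)) (Real.exp (-x) * (-1)) x :=
    (hasDerivAt_neg x).exp
  have h2 : HasDerivAt (fun x : ℝ => x ^ (j + 1)) (((j + 1 : ℕ) : ℝ) * x ^ j) x := by
    simpa using hasDerivAt_pow (j + 1) x
  have h3 := (h.mul h2).div_const ((j + 1).factorial : ℝ)
  refine h3.congr_deriv ?_
  unfold pw
  rw [Nat.factorial_succ]
  have hf : ((j.factorial : ℕ) : ℝ) ≠ 0 := by exact_mod_cast Nat.factorial_ne_zero j
  have hj : ((j : ℝ) + 1) ≠ 0 := by positivity
  push_cast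
  field_simp
  ring

lemma deriv_G (l : ℕ) (x : ℝ) : HasDerivAt (G (l + 1)) (- pw l x) x := by
  induction l with
  | zero =>
    have e : G (0 + 1) = pw 0 := by
      funext y
      simp [G]
    rw [e]
    exact deriv_pw_zero x
  | succ l ih =>
    have e : G (l + 1 + 1) = fun y => G (l + 1) y + pw (l + 1) y := by
      funext y
      simp [G, Finset.sum_range_succ]
    rw [e]
    refine (ih.add (deriv_pw_succ l x)).congr_deriv ?_
    ring

/-- the weights are Lipschitz -/
lemma pw_lip (l : ℕ) {x y : ℝ} (hx : 0 ≤ x) (hy : 0 ≤ y) : |pw l y - pw l x| ≤ |y - x| := by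
  have h := Convex.norm_image_sub_le_of_norm_hasDerivWithin_le (f := pw l)
    (f' := fun z => if l = 0 then - pw 0 z else pw (l - 1) z - pw l z) (s := Set.Ici (0 : ℝ)) (C := 1)
    (x := x) (y := y)
    (by
      intro z hz
      cases l with
      | zero => simpa using (deriv_pw_zero z).hasDerivWithinAt
      | succ l => simpa using (deriv_pw_succ l z).hasDerivWithinAt)
    (by
      intro z hz
      have hz0 : (0 : ℝ) ≤ z := hz
      rw [Real.norm_eq_abs, abs_le]
      split_ifs with h0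
      · constructor <;> linarith [pw_nonneg 0 hz0, pw_le_one 0 hz0]
      · constructor <;> linarith [pw_nonneg l hz0, pw_le_one l hz0, pw_nonneg (l - 1) hz0,
          pw_le_one (l - 1) hz0])
    (convex_Ici 0) hx hy
  simpa using h

/-- one step of the Riemann sum -/
lemma step (l : ℕ) {a V : ℝ} (ha : 0 ≤ a) (hV : 0 ≤ V) :
    |G (l + 1) (a + V) - G (l + 1) a + V * pw l a| ≤ V ^ 2 := by
  have h := Convex.norm_image_sub_le_of_norm_hasDerivWithin_le
    (f := fun z => G (l + 1) z + pw l a * z)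
    (f' := fun z => - pw l z + pw l a) (s := Set.Icc a (a + V)) (C := V)
    (x := a) (y := a + V)
    (by
      intro z hz
      have h1 : HasDerivAt (fun z : ℝ => pw l a * z) (pw l a) z := by
        simpa using (hasDerivAt_id z).const_mul (pw l a)
      exact ((deriv_G l z).add h1).hasDerivWithinAt)
    (by
      intro z hz
      rw [Real.norm_eq_abs]
      have h1 := pw_lip l (x := z) (y := a) (ha.trans hz.1) ha
      have h2 : |a - z| ≤ V := by
        rw [abs_le]
        constructor <;> linarith [hz.1, hz.2]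
      calc |- pw l z + pw l a| = |pw l a - pw l z| := by ring_nf
        _ ≤ |a - z| := h1
        _ ≤ V := h2)
    (convex_Icc a (a + V)) ⟨le_rfl, by linarith⟩ ⟨by linarith, le_rfl⟩
  rw [Real.norm_eq_abs, Real.norm_eq_abs] at h
  calc |G (l + 1) (a + V) - G (l + 1) a + V * pw l a| =
        |G (l + 1) (a + V) + pw l a * (a + V) - (G (l + 1) a + pw l a * a)| := by ring_nf
    _ ≤ V * |a + V - a| := h
    _ = V ^ 2 := by
      rw [add_sub_cancel_left, abs_of_nonneg hV]
      ring

lemma G_zero (l : ℕ) : G (l + 1) 0 = 1 := by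
  unfold G
  rw [Finset.sum_eq_single 0]
  · simp [pw]
  · intro j _ hj
    simp [pw, zero_pow hj]
  · intro h
    simp at h

/-- the Riemann sum -/
lemma riemann (l T : ℕ) {V : ℝ} (hV : 0 ≤ V) :
    |1 - V * ∑ t ∈ range T, pw l (t * V) - G (l + 1) (T * V)| ≤ T * V ^ 2 := by
  induction T with
  | zero => simp [G_zero]
  | succ T ih =>
    have h := step l (a := T * V) (V := V) (by positivity) hV
    rw [Finset.sum_range_succ]
    have e : ((T + 1 : ℕ) : ℝ) * V = T * V + V := by
      push_cast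
      ring
    rw [e]
    calc |1 - V * (∑ t ∈ range T, pw l (t * V) + pw l (T * V)) - G (l + 1) (T * V + V)|
        = |(1 - V * ∑ t ∈ range T, pw l (t * V) - G (l + 1) (T * V)) -
            (G (l + 1) (T * V + V) - G (l + 1) (T * V) + V * pw l (T * V))| := by ring_nf
      _ ≤ |1 - V * ∑ t ∈ range T, pw l (t * V) - G (l + 1) (T * V)| +
            |G (l + 1) (T * V + V) - G (l + 1) (T * V) + V * pw l (T * V)| := abs_sub _ _
      _ ≤ T * V ^ 2 + V ^ 2 := add_le_add ih h
      _ = ((T + 1 : ℕ) : ℝ) * V ^ 2 := by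
        push_cast
        ring

open Classical in
/-- the number of the `x` in `(u, u + Y]` with fewer than `l` elements of `P` in `(x, x + T]` -/
noncomputable def F (P : ℕ → Prop) (l T u Y : ℕ) : ℕ :=
  ((Ioc u (u + Y)).filter (fun x => ((Ioc x (x + T)).filter P).card < l)).card

open Classical in
/-- the counting function of the spacings -/
noncomputable def D (P : ℕ → Prop) (l T u Y : ℕ) : ℕ :=
  ((Ioc u (u + Y)).filter (fun n => P n ∧ ((Ico (n - T) n).filter P).card < l)).card

open Classical in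
lemma D_eq (P : ℕ → Prop) (l T u Y : ℕ) :
    D P l T (u + T + 1) Y =
      ((Ioc u (u + Y)).filter (fun x => P (x + T + 1) ∧ ((Ioc x (x + T)).filter P).card < l)).card := by
  unfold D
  symm
  refine Finset.card_bij (fun x _ => x + T + 1) ?_ ?_ ?_
  · intro x hx
    rw [mem_filter, mem_Ioc] at hx ⊢
    refine ⟨by omega, hx.2.1, ?_⟩
    have e : Ico (x + T + 1 - T) (x + T + 1) = Ioc x (x + T) := by
      ext m
      rw [mem_Ico, mem_Ioc]
      omega
    rw [e]
    exact hx.2.2
  · intro x _ y _ h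
    omega
  · intro n hn
    rw [mem_filter, mem_Ioc] at hn
    obtain ⟨x, rfl⟩ : ∃ x, n = x + T + 1 := ⟨n - T - 1, by omega⟩
    refine ⟨x, ?_, rfl⟩
    rw [mem_filter, mem_Ioc]
    refine ⟨by omega, hn.2.1, ?_⟩
    have e : Ico (x + T + 1 - T) (x + T + 1) = Ioc x (x + T) := by
      ext m
      rw [mem_Ico, mem_Ioc]
      omega
    rw [← e]
    exact hn.2.2

open Classical in
lemma F_succ (P : ℕ → Prop) (l T u Y : ℕ) :
    F P (l + 1) (T + 1) u Y + D P (l + 1) T (u + T + 1) Y =
      F P (l + 1) T u Y + D P l T (u + T + 1) Y := by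
  rw [D_eq, D_eq]
  unfold F
  rw [Finset.card_filter, Finset.card_filter, Finset.card_filter, Finset.card_filter,
    ← Finset.sum_add_distrib, ← Finset.sum_add_distrib]
  apply Finset.sum_congr rfl
  intro x _
  have e : Ioc x (x + (T + 1)) = insert (x + T + 1) (Ioc x (x + T)) := by
    ext m
    rw [mem_insert, mem_Ioc, mem_Ioc]
    omega
  have hn : x + T + 1 ∉ (Ioc x (x + T)).filter P := by
    intro h
    rw [mem_filter, mem_Ioc] at h
    omega
  by_cases hP : P (x + T + 1)
  · have e2 : ((Ioc x (x + (T + 1))).filter P).card = ((Ioc x (x + T)).filter P).card + 1 := by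
      rw [e, Finset.filter_insert, if_pos hP, Finset.card_insert_of_notMem hn]
    rw [e2]
    simp only [hP, true_and, Nat.add_lt_add_iff_right]
    omega
  · have e2 : ((Ioc x (x + (T + 1))).filter P).card = ((Ioc x (x + T)).filter P).card := by
      rw [e, Finset.filter_insert, if_neg hP]
    rw [e2]
    simp [hP]

open Classical in
lemma F_zero (P : ℕ → Prop) (l u Y : ℕ) : F P (l + 1) 0 u Y = Y := by
  unfold F
  simp

lemma F_eq (P : ℕ → Prop) (l T u Y : ℕ) :
    (F P (l + 1) T u Y : ℝ) =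
      Y - ∑ t ∈ range T, ((D P (l + 1) t (u + t + 1) Y : ℝ) - D P l t (u + t + 1) Y) := by
  induction T with
  | zero => simp [F_zero]
  | succ T ih =>
    rw [Finset.sum_range_succ]
    have h : (F P (l + 1) (T + 1) u Y : ℝ) + D P (l + 1) T (u + T + 1) Y =
      F P (l + 1) T u Y + D P l T (u + T + 1) Y := by exact_mod_cast F_succ P l T u Y
    linarith

/-- **From the law of the spacings to the law of the windows.** -/
theorem windows (P : ℕ → Prop) (l T u Y : ℕ) (V η : ℝ) (hV : 0 ≤ V)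
    (h : ∀ t < T, ∀ j, (j = l ∨ j = l + 1) →
      |(D P j t (u + t + 1) Y : ℝ) - Y * V * G j (t * V)| ≤ η * (Y * V)) :
    |(F P (l + 1) T u Y : ℝ) - Y * G (l + 1) (T * V)| ≤ (2 * η + V) * (T * V) * Y := by
  rw [F_eq]
  have h1 : ∀ t ∈ range T, |((D P (l + 1) t (u + t + 1) Y : ℝ) - D P l t (u + t + 1) Y) -
      Y * V * pw l (t * V)| ≤ 2 * η * (Y * V) := by
    intro t ht
    have ha := h t (mem_range.1 ht) l (Or.inl rfl)
    have hb := h t (mem_range.1 ht) (l + 1) (Or.inr rfl)
    have e : G (l + 1) (t * V) = G l (t * V) + pw l (t * V) := by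
      unfold G
      rw [Finset.sum_range_succ]
    rw [e] at hb
    rw [abs_le] at ha hb ⊢
    constructor <;> nlinarith [ha.1, ha.2, hb.1, hb.2]
  have h2 : |∑ t ∈ range T, ((D P (l + 1) t (u + t + 1) Y : ℝ) - D P l t (u + t + 1) Y) -
      ∑ t ∈ range T, Y * V * pw l (t * V)| ≤ T * (2 * η * (Y * V)) := by
    rw [← Finset.sum_sub_distrib]
    refine (Finset.abs_sum_le_sum_abs _ _).trans ?_
    refine (Finset.sum_le_card_nsmul _ _ _ h1).trans ?_
    rw [Finset.card_range, nsmul_eq_mul]
  have h3 := riemann l T hV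
  have h4 : ∑ t ∈ range T, Y * V * pw l (t * V) = Y * (V * ∑ t ∈ range T, pw l (t * V)) := by
    rw [Finset.mul_sum, Finset.mul_sum]
    apply Finset.sum_congr rfl
    intro t _
    ring
  rw [h4] at h2
  have hY : (0 : ℝ) ≤ Y := Nat.cast_nonneg Y
  have h5 : |(Y : ℝ) * (1 - V * ∑ t ∈ range T, pw l (t * V) - G (l + 1) (T * V))| ≤ Y * (T * V ^ 2) := by
    rw [abs_mul, abs_of_nonneg hY]
    exact mul_le_mul_of_nonneg_left h3 hY
  obtain ⟨S1, hS1⟩ : ∃ S1 : ℝ, S1 = ∑ t ∈ range T,
    ((D P (l + 1) t (u + t + 1) Y : ℝ) - D P l t (u + t + 1) Y) := ⟨_, rfl⟩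
  rw [← hS1] at h2 ⊢
  rw [abs_le] at h2 h5 ⊢
  constructor <;> nlinarith [h2.1, h2.2, h5.1, h5.2]

end Pool.Agent.J6H38.SL
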