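import Pool.Agent.J6H38.SL.Tv
import Pool.Agent.R490.Tq

set_option autoImplicit false

/-!
# The number of rough tuples in the windows of a short interval has a Poisson distribution
-/

namespace Pool.Agent.J6H38.SL

open Finset Filter

open Pool.Agent.R490.Tq (Ro V fz fz_card fz_De fz_good tgap Dk)

/-- the density is positive and `O(1 / log X)` -/
lemma V_small (A : ℕ) (r : ℕ) (hr2 : 2 ≤ r) : ∃ M : ℝ, 0 < M ∧ ∀ᶠ X : ℕ in atTop,
    ∀ y : ℕ, y = ⌊(X : ℝ) ^ (1 / (r : ℝ))⌋₊ →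
      ∀ H : Finset ℕ, 2 ≤ H.card → (∀ h ∈ H, h ≤ X ^ A) →
      (∀ p : ℕ, p.Prime → ∃ m : ℕ, ∀ h ∈ H, ¬ p ∣ m + h) →
      ∀ q a : ℕ, 1 ≤ q → q ≤ X ^ A → a ≤ X ^ A → (∀ h ∈ H, Nat.Coprime q (a + h)) →
      0 < V H q y ∧ V H q y ≤ M / Real.log X := by
  obtain ⟨M, hM, h⟩ := Pool.Agent.R490.LZ.V_up (A + 1) r hr2
  refine ⟨M, hM, ?_⟩
  filter_upwards [h, eventually_ge_atTop 2] with X hX hX2
  intro y hy H hk hHX hadm q a hq hqX haX hco
  have hpow : X ^ A + X ^ A ≤ X ^ (A + 1) := by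
    rw [pow_succ]
    nlinarith [Nat.one_le_pow A X (by omega)]
  have hG := fz_good q a (X ^ (A + 1)) H hq (by omega) (fun h hh => by have := hHX h hh; omega) hco hadm
  have h1 := hX (fz q a H) (by rw [fz_card]; exact hk) hG
  have h2 := Pool.Agent.TH464.PO.Vq_pos _
    (fun p hp => Pool.Agent.Y879.GL.us_adm (hG.us0 rfl) p hp) y
  rw [Pool.Agent.R490.LZ.sys_V rfl, fz_De H q a y hco] at h2
  rw [← hy, fz_De H q a y hco] at h1
  exact ⟨h2, h1⟩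

/-- **The number of the rough tuples in the windows `(x, x + T]`, `x` in a short interval, has a Poisson
distribution, uniformly in the tuple, the modulus and the interval.** -/
theorem windowT (k A : ℕ) (hk : 2 ≤ k) (θ : ℝ) (hθ : 0 < θ) (x0 ε : ℝ) (hε : 0 < ε) :
    ∃ r0 : ℕ, 2 ≤ r0 ∧ ∀ r : ℕ, r0 ≤ r → ∀ᶠ X : ℕ in atTop, ∀ y : ℕ, y = ⌊(X : ℝ) ^ (1 / (r : ℝ))⌋₊ →
      ∀ H : Finset ℕ, H.card = k → (∀ h ∈ H, h ≤ X ^ A) →
      (∀ p : ℕ, p.Prime → ∃ m : ℕ, ∀ h ∈ H, ¬ p ∣ m + h) →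
      ∀ q a : ℕ, 1 ≤ q → q ≤ X ^ A → a ≤ X ^ A → (∀ h ∈ H, Nat.Coprime q (a + h)) →
      (∀ h ∈ H, ∀ h' ∈ H, h' < h → ¬ q ∣ h - h') →
      ∀ u Y : ℕ, (X : ℝ) ^ θ ≤ Y → ∀ T : ℕ, T * V H q y ≤ x0 → ∀ J : Finset ℕ,
        |(E (Ro H q a y) T u Y J : ℝ) - Y * ∑ j ∈ J, pw j (T * V H q y)| ≤ ε * Y := by
  obtain ⟨l0, hl0⟩ := tail x0 (ε / 8) (by positivity)
  obtain ⟨x1, hx1⟩ : ∃ x1 : ℝ, x1 = max x0 1 := ⟨_, rfl⟩
  have hx11 : 1 ≤ x1 := by rw [hx1]; exact le_max_right _ _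
  have hx10 : x0 ≤ x1 := by rw [hx1]; exact le_max_left _ _
  obtain ⟨η, hη⟩ : ∃ η : ℝ, η = ε / (16 * (l0 + 1) * x1) := ⟨_, rfl⟩
  have hη0 : 0 < η := by rw [hη]; positivity
  obtain ⟨r0, h0⟩ := tgap k A hk θ hθ l0 x0 η hη0
  refine ⟨max r0 2, le_max_right _ _, fun r hr => ?_⟩
  have hr2 : 2 ≤ r := (le_max_right _ _).trans hr
  obtain ⟨M, hM, hV⟩ := V_small A r hr2
  have hlog : ∀ᶠ X : ℕ in atTop, M / Real.log X ≤ η := by
    have h1 : Tendsto (fun X : ℕ => M / Real.log X) atTop (nhds 0) :=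
      Tendsto.const_div_atTop (Real.tendsto_log_atTop.comp tendsto_natCast_atTop_atTop) M
    exact h1.eventually_le_const hη0
  filter_upwards [h0 r ((le_max_left _ _).trans hr), hV, hlog] with X hX hVX hlX
  intro y hy H hk' hHX hadm q a hq hqX haX hco hdif u Y hY T hT J
  obtain ⟨hVp, hVl⟩ := hVX y hy H (by omega) hHX hadm q a hq hqX haX hco
  have hVη : V H q y ≤ η := hVl.trans hlX
  have hTV : (0 : ℝ) ≤ T * V H q y := by positivity
  have hgap : ∀ t j : ℕ, j ≤ l0 → ∀ v : ℕ,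
      |(D (Ro H q a y) j t v Y : ℝ) - Y * V H q y * G j (t * V H q y)| ≤ η * (Y * V H q y) :=
    fun t j hj v => hX y hy H hk' hHX hadm q a hq hqX haX hco hdif v Y hY j t (Or.inl hj)
  obtain ⟨η', hη'⟩ : ∃ η' : ℝ, η' = 3 * η * x1 := ⟨_, rfl⟩
  have hη'0 : 0 ≤ η' := by rw [hη']; positivity
  have hF : ∀ l ≤ l0, |(F (Ro H q a y) l T u Y : ℝ) - Y * G l (T * V H q y)| ≤ η' * Y := by
    intro l hl
    rcases Nat.eq_zero_or_pos l with h | h
    · subst h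
      have e1 : F (Ro H q a y) 0 T u Y = 0 := by
        unfold F
        simp
      have e2 : G 0 (T * V H q y) = 0 := by
        unfold G
        simp
      rw [e1, e2]
      simp only [Nat.cast_zero, mul_zero, sub_zero, abs_zero]
      positivity
    · obtain ⟨l', rfl⟩ : ∃ l', l = l' + 1 := ⟨l - 1, by omega⟩
      have h3 := windows (Ro H q a y) l' T u Y (V H q y) η hVp.le
        (fun t _ j hj => hgap t j (by rcases hj with rfl | rfl <;> omega) _)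
      refine h3.trans ?_
      apply mul_le_mul_of_nonneg_right _ (Nat.cast_nonneg Y)
      rw [hη']
      have h4 : 2 * η + V H q y ≤ 3 * η := by linarith
      exact mul_le_mul h4 (hT.trans hx10) hTV (by positivity)
  have h5 := tv (Ro H q a y) T u Y l0 (T * V H q y) η' (ε / 8) hTV hη'0 hF (hl0 _ hTV hT) J
  refine h5.trans ?_
  apply mul_le_mul_of_nonneg_right _ (Nat.cast_nonneg Y)
  have h6 : η' * (l0 + 1) = 3 * ε / 16 := by
    rw [hη', hη]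
    field_simp
  nlinarith

end Pool.Agent.J6H38.SL
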