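import Pool.Agent.J6H38.SL.Cnt

set_option autoImplicit false

/-!
# The law of the numbers in windows, in total variation (pure part)
-/

namespace Pool.Agent.J6H38.SL

open Finset Filter

lemma G_le_one (N : ℕ) {x : ℝ} (hx : 0 ≤ x) : G N x ≤ 1 := by
  unfold G pw
  have h := Real.sum_le_exp_of_nonneg hx N
  have e : ∑ j ∈ range N, Real.exp (-x) * x ^ j / (j.factorial : ℝ) =
      Real.exp (-x) * ∑ j ∈ range N, x ^ j / (j.factorial : ℝ) := by
    rw [Finset.mul_sum]
    apply Finset.sum_congr rfl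
    intro j _
    ring
  rw [e, Real.exp_neg, inv_mul_le_iff₀ (Real.exp_pos x), mul_one]
  exact h

lemma sum_le_one (K : Finset ℕ) {x : ℝ} (hx : 0 ≤ x) : ∑ j ∈ K, pw j x ≤ 1 := by
  refine le_trans ?_ (G_le_one (K.sup id + 1) hx)
  unfold G
  apply Finset.sum_le_sum_of_subset_of_nonneg
  · intro j hj
    rw [mem_range]
    have : id j ≤ K.sup id := Finset.le_sup hj
    simp only [id] at this
    omega
  · intro j _ _
    exact pw_nonneg j hx

/-- the tail is uniformly small -/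
lemma tail (x0 τ : ℝ) (hτ : 0 < τ) : ∃ l0 : ℕ, ∀ x : ℝ, 0 ≤ x → x ≤ x0 → 1 - G l0 x ≤ τ := by
  have h := FloorSemiring.tendsto_pow_div_factorial_atTop (max x0 0)
  have h2 : ∀ᶠ n : ℕ in atTop, (max x0 0) ^ n / (n.factorial : ℝ) * max x0 0 < τ := by
    have h3 := h.mul_const (max x0 0)
    rw [zero_mul] at h3
    exact h3.eventually_lt_const hτ
  obtain ⟨l, hl⟩ := h2.exists
  refine ⟨l + 1, fun x hx hx0 => ?_⟩
  have hm : (0 : ℝ) ≤ max x0 0 := le_max_right _ _
  have h4 := Convex.norm_image_sub_le_of_norm_hasDerivWithin_le (f := G (l + 1))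
    (f' := fun z => - pw l z) (s := Set.Icc (0 : ℝ) x) (C := (max x0 0) ^ l / (l.factorial : ℝ))
    (x := 0) (y := x)
    (fun z _ => (deriv_G l z).hasDerivWithinAt)
    (by
      intro z hz
      rw [norm_neg, Real.norm_eq_abs, abs_of_nonneg (pw_nonneg l hz.1)]
      unfold pw
      have h5 : Real.exp (-z) ≤ 1 := Real.exp_le_one_iff.2 (by linarith [hz.1])
      have h6 : z ^ l ≤ (max x0 0) ^ l :=
        pow_le_pow_left₀ hz.1 (hz.2.trans (hx0.trans (le_max_left _ _))) l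
      have h7 : (0 : ℝ) ≤ z ^ l := pow_nonneg hz.1 l
      apply div_le_div_of_nonneg_right _ (by positivity)
      nlinarith [Real.exp_pos (-z)])
    (convex_Icc 0 x) ⟨le_rfl, hx⟩ ⟨hx, le_rfl⟩
  rw [G_zero, Real.norm_eq_abs, Real.norm_eq_abs, sub_zero, abs_of_nonneg hx] at h4
  rw [abs_le] at h4
  have h8 : (max x0 0) ^ l / (l.factorial : ℝ) * x ≤ (max x0 0) ^ l / (l.factorial : ℝ) * max x0 0 :=
    mul_le_mul_of_nonneg_left (hx0.trans (le_max_left _ _)) (by positivity)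
  linarith [h4.1]

open Classical in
/-- the number of the `x` in `(u, u + Y]` for which the number of the elements of `P` in `(x, x + T]` is in `J` -/
noncomputable def E (P : ℕ → Prop) (T u Y : ℕ) (J : Finset ℕ) : ℕ :=
  ((Ioc u (u + Y)).filter (fun x => ((Ioc x (x + T)).filter P).card ∈ J)).card

open Classical in
lemma E_sum (P : ℕ → Prop) (T u Y : ℕ) (J : Finset ℕ) : E P T u Y J = ∑ j ∈ J, E P T u Y {j} := by
  unfold E
  rw [Finset.card_eq_sum_card_fiberwise (f := fun x => ((Ioc x (x + T)).filter P).card) (t := J)]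
  · apply Finset.sum_congr rfl
    intro j hj
    rw [Finset.filter_filter]
    congr 1
    apply Finset.filter_congr
    intro x _
    rw [mem_singleton]
    constructor
    · rintro ⟨_, h⟩
      exact h
    · intro h
      exact ⟨h ▸ hj, h⟩
  · intro x hx
    have := (mem_filter.1 hx).2
    exact this

open Classical in
lemma F_sum (P : ℕ → Prop) (l T u Y : ℕ) : F P l T u Y = E P T u Y (range l) := by
  unfold F E
  simp only [mem_range]

open Classical in
lemma E_le (P : ℕ → Prop) (T u Y : ℕ) (J : Finset ℕ) : E P T u Y J ≤ Y := by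
  unfold E
  refine (Finset.card_filter_le _ _).trans ?_
  rw [Nat.card_Ioc]
  omega

/-- **Total variation.** -/
theorem tv (P : ℕ → Prop) (T u Y l0 : ℕ) (x η τ : ℝ) (hx : 0 ≤ x) (hη : 0 ≤ η)
    (h : ∀ l ≤ l0, |(F P l T u Y : ℝ) - Y * G l x| ≤ η * Y) (ht : 1 - G l0 x ≤ τ) (J : Finset ℕ) :
    |(E P T u Y J : ℝ) - Y * ∑ j ∈ J, pw j x| ≤ (2 * l0 * η + η + 2 * τ) * Y := by
  have hY : (0 : ℝ) ≤ Y := Nat.cast_nonneg Y
  -- the single numbers
  have h1 : ∀ j < l0, |(E P T u Y {j} : ℝ) - Y * pw j x| ≤ 2 * η * Y := by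
    intro j hj
    have ha := h j hj.le
    have hb := h (j + 1) hj
    have e1 : (F P (j + 1) T u Y : ℝ) = F P j T u Y + E P T u Y {j} := by
      rw [F_sum, F_sum, E_sum P T u Y (range (j + 1)), E_sum P T u Y (range j),
        Finset.sum_range_succ]
      push_cast
      ring
    have e2 : G (j + 1) x = G j x + pw j x := by
      unfold G
      rw [Finset.sum_range_succ]
    rw [e1, e2] at hb
    rw [abs_le] at ha hb ⊢
    constructor <;> nlinarith [ha.1, ha.2, hb.1, hb.2]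
  obtain ⟨J1, hJ1⟩ : ∃ J1, J1 = J.filter (fun j => j < l0) := ⟨_, rfl⟩
  obtain ⟨J2, hJ2⟩ : ∃ J2, J2 = J.filter (fun j => ¬ j < l0) := ⟨_, rfl⟩
  have eE : (E P T u Y J : ℝ) = ∑ j ∈ J1, (E P T u Y {j} : ℝ) + ∑ j ∈ J2, (E P T u Y {j} : ℝ) := by
    rw [E_sum, hJ1, hJ2]
    push_cast
    rw [Finset.sum_filter_add_sum_filter_not]
  have eW : ∑ j ∈ J, pw j x = ∑ j ∈ J1, pw j x + ∑ j ∈ J2, pw j x := by
    rw [hJ1, hJ2, Finset.sum_filter_add_sum_filter_not]
  have hdis : Disjoint J2 (range l0) := by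
    rw [Finset.disjoint_left]
    intro j hj hj'
    rw [hJ2, mem_filter] at hj
    exact hj.2 (mem_range.1 hj')
  -- the first part
  have p1 : |∑ j ∈ J1, (E P T u Y {j} : ℝ) - Y * ∑ j ∈ J1, pw j x| ≤ 2 * l0 * η * Y := by
    rw [Finset.mul_sum, ← Finset.sum_sub_distrib]
    refine (Finset.abs_sum_le_sum_abs _ _).trans ?_
    refine (Finset.sum_le_card_nsmul _ _ (2 * η * Y) ?_).trans ?_
    · intro j hj
      rw [hJ1, mem_filter] at hj
      exact h1 j hj.2
    · rw [nsmul_eq_mul]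
      have hc : (J1.card : ℝ) ≤ l0 := by
        have h2 : J1 ⊆ range l0 := by
          intro j hj
          rw [hJ1, mem_filter] at hj
          exact mem_range.2 hj.2
        have h3 := Finset.card_le_card h2
        rw [Finset.card_range] at h3
        exact_mod_cast h3
      calc (J1.card : ℝ) * (2 * η * Y) ≤ l0 * (2 * η * Y) :=
            mul_le_mul_of_nonneg_right hc (by positivity)
        _ = 2 * l0 * η * Y := by ring
  -- the second part
  have p2 : ∑ j ∈ J2, (E P T u Y {j} : ℝ) ≤ (τ + η) * Y := by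
    have h2 : (∑ j ∈ J2, (E P T u Y {j} : ℝ)) + F P l0 T u Y ≤ Y := by
      rw [F_sum]
      have h3 := E_le P T u Y (J2 ∪ range l0)
      rw [E_sum, Finset.sum_union hdis, ← E_sum P T u Y (range l0)] at h3
      exact_mod_cast h3
    have h4 := h l0 le_rfl
    rw [abs_le] at h4
    have h5 : (Y : ℝ) * (1 - G l0 x) ≤ Y * τ := mul_le_mul_of_nonneg_left ht hY
    nlinarith [h4.1]
  have p2' : 0 ≤ ∑ j ∈ J2, (E P T u Y {j} : ℝ) := Finset.sum_nonneg (fun _ _ => Nat.cast_nonneg _)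
  have p3 : ∑ j ∈ J2, pw j x ≤ τ := by
    have h2 := sum_le_one (J2 ∪ range l0) hx
    rw [Finset.sum_union hdis] at h2
    have h3 : ∑ j ∈ range l0, pw j x = G l0 x := rfl
    rw [h3] at h2
    linarith
  have p3' : 0 ≤ ∑ j ∈ J2, pw j x := Finset.sum_nonneg (fun j _ => pw_nonneg j hx)
  rw [eE, eW]
  have p4 : (Y : ℝ) * ∑ j ∈ J2, pw j x ≤ Y * τ := mul_le_mul_of_nonneg_left p3 hY
  have p4' : 0 ≤ (Y : ℝ) * ∑ j ∈ J2, pw j x := mul_nonneg hY p3'
  have hτY : 0 ≤ τ * Y := by nlinarith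
  have hηY : 0 ≤ η * Y := mul_nonneg hη hY
  rw [abs_le] at p1 ⊢
  constructor <;> nlinarith [p1.1, p1.2]

end Pool.Agent.J6H38.SL
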